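import Mathlib

/-!
# Colourings of the `p`-subsets of an edge that block all orderings

A partial colouring of the `p`-subsets of an `r`-set by `p`-sets of positions blocks all orderings
of the `r`-set only if it is total and constant, for `r ≥ 5` and `p = 2` or `p = r - 2`.
-/

set_option autoImplicit false

namespace Pool.Agent.E8helper47.OD

open Finset

/-- injective functions on a subset extend to permutations -/
theorem ext_perm {r : ℕ} (S : Finset (Fin r)) (g : Fin r → Fin r)
    (hg : Set.InjOn g (S : Set (Fin r))) : ∃ σ : Equiv.Perm (Fin r), ∀ x ∈ S, σ x = g x := by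
  obtain ⟨e, he⟩ := Finset.exists_equiv_extend_of_card_eq (α := Fin r) (β := Fin r)
    (t := univ) (by simp) (s := S) (f := g) (by simp) hg
  refine ⟨e.trans (Equiv.subtypeUnivEquiv (fun x => mem_univ x)), fun x hx => ?_⟩
  simpa using he x hx

/-- permutations act transitively on the `p`-sets -/
theorem exists_perm {r : ℕ} (A P : Finset (Fin r)) (h : A.card = P.card) :
    ∃ σ : Equiv.Perm (Fin r), A.image σ = P := by
  classical
  let e := Finset.equivOfCardEq h
  obtain ⟨σ, hσ⟩ := ext_perm A (fun x => if hx : x ∈ A then (e ⟨x, hx⟩ : Fin r) else x) (by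
    intro x hx y hy hxy
    rw [mem_coe] at hx hy
    simp only [hx, hy, dif_pos] at hxy
    have := e.injective (Subtype.ext hxy)
    exact congrArg Subtype.val this)
  refine ⟨σ, ?_⟩
  apply Finset.eq_of_subset_of_card_le
  · intro y hy
    rw [mem_image] at hy
    obtain ⟨x, hx, rfl⟩ := hy
    rw [hσ x hx]
    simp only [hx, dif_pos]
    exact (e ⟨x, hx⟩).2
  · rw [card_image_of_injective _ σ.injective, h]

/-- the permutations that map `A` to `P` -/
def X {r : ℕ} (A P : Finset (Fin r)) : Finset (Equiv.Perm (Fin r)) :=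
  univ.filter (fun σ => A.image σ = P)

theorem card_X {r : ℕ} (A P A' P' : Finset (Fin r)) (h1 : A.card = P.card)
    (h2 : A.card = A'.card) (h3 : A.card = P'.card) : (X A P).card = (X A' P').card := by
  obtain ⟨α, hα⟩ := exists_perm A A' h2
  obtain ⟨β, hβ⟩ := exists_perm P P' (h1.symm.trans h3)
  apply Finset.card_bij (fun σ _ => β * σ * α⁻¹)
  · intro σ hσ
    simp only [X, mem_filter, mem_univ, true_and] at hσ ⊢
    rw [← hα, ← hβ, ← hσ]
    ext y
    simp
  · intro σ _ τ _ h
    simpa using h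
  · intro τ hτ
    refine ⟨β⁻¹ * τ * α, ?_, by group⟩
    simp only [X, mem_filter, mem_univ, true_and] at hτ ⊢
    have h4 : P = P'.image (β⁻¹ : Equiv.Perm (Fin r)) := by
      rw [← hβ, image_image]
      ext y
      simp
    rw [h4, ← hτ, ← hα]
    ext y
    simp

/-- counting: a blocking colouring is total, and every permutation is blocked exactly once -/
theorem count {r p : ℕ} (hp : p ≤ r) (𝓑 : Finset (Finset (Fin r)))
    (c : Finset (Fin r) → Finset (Fin r)) (hc : ∀ A, (c A).card = p)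
    (hkill : ∀ σ : Equiv.Perm (Fin r), ∃ A ∈ 𝓑, A.card = p ∧ A.image σ = c A) :
    (∀ A : Finset (Fin r), A.card = p → A ∈ 𝓑) ∧
      ∀ (σ : Equiv.Perm (Fin r)) (A A' : Finset (Fin r)), A.card = p → A'.card = p →
        A.image σ = c A → A'.image σ = c A' → A = A' := by
  classical
  obtain ⟨P₀, hP₀⟩ : ∃ P₀ : Finset (Fin r), P₀.card = p := by
    obtain ⟨P₀, -, h⟩ := Finset.exists_subset_card_eq (s := (univ : Finset (Fin r))) (n := p)
      (by simpa using hp)
    exact ⟨P₀, h⟩
  obtain ⟨Ω, hΩ⟩ : ∃ Ω : Finset (Finset (Fin r)), Ω = powersetCard p univ := ⟨_, rfl⟩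
  have hΩm : ∀ A, A ∈ Ω ↔ A.card = p := by
    intro A
    rw [hΩ, mem_powersetCard]
    simp
  obtain ⟨K, hK⟩ : ∃ K, K = (X P₀ P₀).card := ⟨_, rfl⟩
  have hXK : ∀ A P : Finset (Fin r), A.card = p → P.card = p → (X A P).card = K := by
    intro A P hA hP
    rw [hK]
    exact card_X A P P₀ P₀ (by omega) (by omega) (by omega)
  have hswap : ∀ (𝓢 : Finset (Finset (Fin r))) (d : Finset (Fin r) → Finset (Fin r)),
      (∀ A ∈ 𝓢, A.card = p) → (∀ A, (d A).card = p) →
      ∑ σ : Equiv.Perm (Fin r), (𝓢.filter (fun A => A.image σ = d A)).card = 𝓢.card * K := by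
    intro 𝓢 d h𝓢 hd
    have h1 : ∀ σ : Equiv.Perm (Fin r), (𝓢.filter (fun A => A.image σ = d A)).card =
        ∑ A ∈ 𝓢, if A.image σ = d A then 1 else 0 := fun σ => by
      rw [card_filter]
    simp only [h1]
    rw [Finset.sum_comm]
    have h2 : ∀ A ∈ 𝓢, ∑ σ : Equiv.Perm (Fin r), (if A.image σ = d A then 1 else 0) = K := by
      intro A hA
      rw [← hXK A (d A) (h𝓢 A hA) (hd A), X, card_filter]
    rw [Finset.sum_congr rfl h2, sum_const, smul_eq_mul]
  have htot : Ω.card * K = (univ : Finset (Equiv.Perm (Fin r))).card := by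
    rw [← hswap Ω (fun _ => P₀) (fun A hA => (hΩm A).mp hA) (fun _ => hP₀), card_eq_sum_ones]
    refine Finset.sum_congr rfl (fun σ _ => ?_)
    rw [card_eq_one]
    refine ⟨P₀.image (σ⁻¹ : Equiv.Perm (Fin r)), ?_⟩
    ext A
    rw [mem_filter, mem_singleton, hΩm]
    constructor
    · rintro ⟨-, h⟩
      rw [← h, image_image]
      ext y
      simp
    · rintro rfl
      refine ⟨by rw [card_image_of_injective _ (Equiv.injective _), hP₀], ?_⟩
      rw [image_image]
      ext y
      simp
  obtain ⟨𝓑', h𝓑'⟩ : ∃ 𝓑', 𝓑' = 𝓑.filter (fun A => A.card = p) := ⟨_, rfl⟩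
  have h𝓑Ω : 𝓑' ⊆ Ω := by
    intro A hA
    rw [h𝓑', mem_filter] at hA
    exact (hΩm A).mpr hA.2
  have hge : ∀ σ : Equiv.Perm (Fin r), 1 ≤ (𝓑'.filter (fun A => A.image σ = c A)).card := by
    intro σ
    obtain ⟨A, hA, hAp, hAσ⟩ := hkill σ
    rw [Nat.succ_le_iff, card_pos]
    exact ⟨A, by rw [mem_filter, h𝓑', mem_filter]; exact ⟨⟨hA, hAp⟩, hAσ⟩⟩
  have hle : (univ : Finset (Equiv.Perm (Fin r))).card ≤ 𝓑'.card * K := by
    rw [← hswap 𝓑' c (fun A hA => (hΩm A).mp (h𝓑Ω hA)) hc, card_eq_sum_ones]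
    exact Finset.sum_le_sum (fun σ _ => hge σ)
  have hcardpos : 0 < (univ : Finset (Equiv.Perm (Fin r))).card := card_pos.mpr univ_nonempty
  have hKpos : 0 < K := by
    rcases Nat.eq_zero_or_pos K with h | h
    · rw [h] at htot
      omega
    · exact h
  have hcard : Ω.card ≤ 𝓑'.card := by
    rw [← htot] at hle
    exact Nat.le_of_mul_le_mul_right hle hKpos
  have heq : 𝓑' = Ω := Finset.eq_of_subset_of_card_le h𝓑Ω hcard
  refine ⟨fun A hA => ?_, fun σ A A' hA hA' h1 h2 => ?_⟩
  · have : A ∈ 𝓑' := by rw [heq]; exact (hΩm A).mpr hA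
    rw [h𝓑', mem_filter] at this
    exact this.1
  · have hs : ∑ σ : Equiv.Perm (Fin r), 1 =
        ∑ σ : Equiv.Perm (Fin r), (𝓑'.filter (fun A => A.image σ = c A)).card := by
      rw [hswap 𝓑' c (fun A hA => (hΩm A).mp (h𝓑Ω hA)) hc, heq, htot, card_eq_sum_ones]
    have h3 := (Finset.sum_eq_sum_iff_of_le (fun σ _ => hge σ)).mp hs σ (mem_univ σ)
    have h4 : (𝓑'.filter (fun A => A.image σ = c A)).card ≤ 1 := h3.symm.le
    rw [card_le_one] at h4
    apply h4 A _ A' _
    · rw [mem_filter, heq, hΩm]; exact ⟨hA, h1⟩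
    · rw [mem_filter, heq, hΩm]; exact ⟨hA', h2⟩

/-- the case `p = 2`, combinatorial part -/
theorem comb2 {r : ℕ} (hr : 5 ≤ r) (c : Finset (Fin r) → Finset (Fin r))
    (hc : ∀ A, (c A).card = 2)
    (h1 : ∀ a b d e : Fin r, a ≠ b → a ≠ d → a ≠ e → b ≠ d → b ≠ e → d ≠ e →
      ¬ Disjoint (c {a, b}) (c {d, e}))
    (h2 : ∀ a b d : Fin r, a ≠ b → a ≠ d → b ≠ d →
      c {a, b} = c {a, d} ∨ Disjoint (c {a, b}) (c {a, d})) :
    ∀ a b d e : Fin r, a ≠ b → a ≠ d → a ≠ e → b ≠ d → b ≠ e → d ≠ e →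
      c {a, b} = c {d, e} := by
  classical
  intro a b d e hab had hae hbd hbe hde
  by_contra hne
  obtain ⟨v, hv⟩ : ∃ v : Fin r, v ∉ ({a, b, d, e} : Finset (Fin r)) := by
    by_contra hcon
    push Not at hcon
    have hsub : (univ : Finset (Fin r)) ⊆ {a, b, d, e} := fun v _ => hcon v
    have h3 := card_le_card hsub
    have h4 : ({a, b, d, e} : Finset (Fin r)).card ≤ 4 := card_le_four
    rw [card_univ, Fintype.card_fin] at h3
    omega
  simp only [mem_insert, mem_singleton, not_or] at hv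
  obtain ⟨hva, hvb, hvd, hve⟩ := hv
  -- the four crossing pairs
  have key : ∀ x y z w : Fin r, x ≠ y → x ≠ z → x ≠ w → y ≠ z → y ≠ w → z ≠ w →
      c {x, y} = c {a, b} → c {z, w} = c {d, e} →
      Disjoint (c {x, z}) (c {a, b}) ∧ Disjoint (c {x, z}) (c {d, e}) := by
    intro x y z w hxy hxz hxw hyz hyw hzw e1 e2
    have h3 : c {x, z} = c {a, b} ∨ Disjoint (c {x, z}) (c {a, b}) := by
      rw [← e1]; exact h2 x z y hxz hxy hyz.symm
    have h4 : c {x, z} = c {d, e} ∨ Disjoint (c {x, z}) (c {d, e}) := by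
      rw [← e2, pair_comm x z]; exact h2 z x w hxz.symm hzw hxw
    have h5 : ¬ Disjoint (c {a, b}) (c {d, e}) := h1 a b d e hab had hae hbd hbe hde
    rcases h3 with h3 | h3
    · rcases h4 with h4 | h4
      · exact absurd (h3.symm.trans h4) hne
      · rw [h3] at h4
        exact absurd h4 h5
    · rcases h4 with h4 | h4
      · rw [h4] at h3
        exact absurd h3.symm h5
      · exact ⟨h3, h4⟩
  have kad := key a b d e hab had hae hbd hbe hde rfl rfl
  have kbd := key b a d e hab.symm hbd hbe had hae hde (by rw [pair_comm]) rfl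
  have kbe := key b a e d hab.symm hbe hbd hae had hde.symm (by rw [pair_comm])
    (by rw [pair_comm])
  -- the pair `a, v`
  have hav1 : Disjoint (c {a, v}) (c {a, b}) := by
    rcases h2 a v b (Ne.symm hva) hab hvb with h | h
    · exfalso
      apply h1 a v b d (Ne.symm hva) hab had hvb hvd hbd
      rw [h]
      exact kbd.1.symm
    · exact h
  have hav2 := h1 a v d e (Ne.symm hva) had hae hvd hve hde
  rw [Finset.not_disjoint_iff] at hav2
  obtain ⟨w, hw1, hw2⟩ := hav2
  have hav3 : Disjoint (c {a, v}) (c {a, d}) := by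
    rcases h2 a v d (Ne.symm hva) had hvd with h | h
    · exfalso
      rw [h] at hw1
      exact (Finset.disjoint_left.mp kad.2 hw1) hw2
    · exact h
  have hbd' := h1 b d a v hbd hab.symm (Ne.symm hvb) had.symm (Ne.symm hvd) (Ne.symm hva)
  have hbe' := h1 b e a v hbe hab.symm (Ne.symm hvb) hae.symm (Ne.symm hve) (Ne.symm hva)
  rw [Finset.not_disjoint_iff] at hbd' hbe'
  obtain ⟨x, hx1, hx2⟩ := hbd'
  obtain ⟨x', hx1', hx2'⟩ := hbe'
  have hxw : x ≠ w := fun h => (Finset.disjoint_left.mp kbd.2 hx1) (h ▸ hw2)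
  have hxw' : x' ≠ w := fun h => (Finset.disjoint_left.mp kbe.2 hx1') (h ▸ hw2)
  have hxx : x = x' := by
    by_contra hxx
    have hsub : ({x, x', w} : Finset (Fin r)) ⊆ c {a, v} := by
      intro u hu
      simp only [mem_insert, mem_singleton] at hu
      rcases hu with rfl | rfl | rfl
      · exact hx2
      · exact hx2'
      · exact hw1
    have h3 := card_le_card hsub
    rw [hc, card_eq_three.mpr ⟨x, x', w, hxx, hxw, hxw', rfl⟩] at h3
    omega
  subst hxx
  have e1 : c {b, d} = c {b, e} := by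
    rcases h2 b d e hbd hbe hde with h | h
    · exact h
    · exact absurd hx1' (Finset.disjoint_left.mp h hx1)
  have e2 : c {a, d} = c {b, d} := by
    rcases h2 d a b had.symm hbd.symm hab with h | h
    · rw [pair_comm a d, pair_comm b d]; exact h
    · exfalso
      apply h1 a d b e had hab hae hbd.symm hde hbe
      rw [← e1, pair_comm a d, pair_comm b d]
      exact h
  exact (Finset.disjoint_left.mp hav3 hx2) (e2 ▸ hx1)

theorem pairs_const {r : ℕ} (hr : 5 ≤ r) (c : Finset (Fin r) → Finset (Fin r))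
    (hc : ∀ A, (c A).card = 2)
    (hu : ∀ (σ : Equiv.Perm (Fin r)) (A A' : Finset (Fin r)), A.card = 2 → A'.card = 2 →
        A.image σ = c A → A'.image σ = c A' → A = A') :
    ∃ P : Finset (Fin r), ∀ A : Finset (Fin r), A.card = 2 → c A = P := by
  classical
  have h1 : ∀ a b d e : Fin r, a ≠ b → a ≠ d → a ≠ e → b ≠ d → b ≠ e → d ≠ e →
      ¬ Disjoint (c {a, b}) (c {d, e}) := by
    intro a b d e hab had hae hbd hbe hde hdis
    obtain ⟨x, y, hxy, hxy'⟩ := card_eq_two.mp (hc {a, b})
    obtain ⟨z, w, hzw, hzw'⟩ := card_eq_two.mp (hc {d, e})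
    rw [hxy', hzw'] at hdis
    simp only [disjoint_insert_left, disjoint_singleton_left, mem_insert, mem_singleton,
      not_or] at hdis
    obtain ⟨⟨hxz, hxw⟩, hyz, hyw⟩ := hdis
    obtain ⟨σ, hσ⟩ := ext_perm ({a, b, d, e} : Finset (Fin r))
      (fun u => if u = a then x else if u = b then y else if u = d then z else w) (by
        intro u hu v hv huv
        simp only [coe_insert, coe_singleton, Set.mem_insert_iff, Set.mem_singleton_iff] at hu hv
        rcases hu with rfl | rfl | rfl | rfl <;> rcases hv with rfl | rfl | rfl | rfl <;>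
          simp_all [eq_comm])
    have ha : σ a = x := by rw [hσ a (by simp)]; simp
    have hb : σ b = y := by rw [hσ b (by simp)]; simp [hab.symm]
    have hd : σ d = z := by rw [hσ d (by simp)]; simp [had.symm, hbd.symm]
    have he : σ e = w := by rw [hσ e (by simp)]; simp [hae.symm, hbe.symm, hde.symm]
    have h3 := hu σ {a, b} {d, e} (card_pair hab) (card_pair hde)
      (by rw [image_insert, image_singleton, ha, hb, hxy'])
      (by rw [image_insert, image_singleton, hd, he, hzw'])
    have h4 : a ∈ ({d, e} : Finset (Fin r)) := by rw [← h3]; simp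
    simp only [mem_insert, mem_singleton] at h4
    rcases h4 with h4 | h4
    · exact had h4
    · exact hae h4
  have h2 : ∀ a b d : Fin r, a ≠ b → a ≠ d → b ≠ d →
      c {a, b} = c {a, d} ∨ Disjoint (c {a, b}) (c {a, d}) := by
    intro a b d hab had hbd
    by_contra hcon
    push Not at hcon
    obtain ⟨hne, hnd⟩ := hcon
    rw [Finset.not_disjoint_iff] at hnd
    obtain ⟨x, hx1, hx2⟩ := hnd
    obtain ⟨y, hy⟩ : ∃ y, c {a, b} = {x, y} ∧ x ≠ y := by
      have h3 : ((c {a, b}).erase x).card = 1 := by rw [card_erase_of_mem hx1, hc]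
      obtain ⟨y, hy⟩ := card_eq_one.mp h3
      refine ⟨y, ?_, ?_⟩
      · rw [← insert_erase hx1, hy]
      · rintro rfl
        have : x ∈ (c {a, b}).erase x := by rw [hy]; simp
        simp at this
    obtain ⟨z, hz⟩ : ∃ z, c {a, d} = {x, z} ∧ x ≠ z := by
      have h3 : ((c {a, d}).erase x).card = 1 := by rw [card_erase_of_mem hx2, hc]
      obtain ⟨y, hy⟩ := card_eq_one.mp h3
      refine ⟨y, ?_, ?_⟩
      · rw [← insert_erase hx2, hy]
      · rintro rfl
        have : x ∈ (c {a, d}).erase x := by rw [hy]; simp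
        simp at this
    obtain ⟨hy', hxy⟩ := hy
    obtain ⟨hz', hxz⟩ := hz
    have hyz : y ≠ z := by
      rintro rfl
      exact hne (hy'.trans hz'.symm)
    obtain ⟨σ, hσ⟩ := ext_perm ({a, b, d} : Finset (Fin r))
      (fun u => if u = a then x else if u = b then y else z) (by
        intro u hu v hv huv
        simp only [coe_insert, coe_singleton, Set.mem_insert_iff, Set.mem_singleton_iff] at hu hv
        rcases hu with rfl | rfl | rfl <;> rcases hv with rfl | rfl | rfl <;>
          simp_all [eq_comm])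
    have ha : σ a = x := by rw [hσ a (by simp)]; simp
    have hb : σ b = y := by rw [hσ b (by simp)]; simp [hab.symm]
    have hd : σ d = z := by rw [hσ d (by simp)]; simp [had.symm, hbd.symm]
    have h3 := hu σ {a, b} {a, d} (card_pair hab) (card_pair had)
      (by rw [image_insert, image_singleton, ha, hb, hy'])
      (by rw [image_insert, image_singleton, ha, hd, hz'])
    have h4 : b ∈ ({a, d} : Finset (Fin r)) := by rw [← h3]; simp
    simp only [mem_insert, mem_singleton] at h4
    rcases h4 with h4 | h4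
    · exact hab h4.symm
    · exact hbd h4
  have h3 := comb2 hr c hc h1 h2
  -- two pairs with a common element
  have h4 : ∀ a b d : Fin r, a ≠ b → a ≠ d → b ≠ d → c {a, b} = c {a, d} := by
    intro a b d hab had hbd
    obtain ⟨v, hv⟩ : ∃ v : Fin r, v ∉ ({a, b, d} : Finset (Fin r)) := by
      by_contra hcon
      push Not at hcon
      have hsub : (univ : Finset (Fin r)) ⊆ {a, b, d} := fun v _ => hcon v
      have h3 := card_le_card hsub
      have h4 : ({a, b, d} : Finset (Fin r)).card ≤ 3 := card_le_three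
      rw [card_univ, Fintype.card_fin] at h3
      omega
    obtain ⟨w, hw⟩ : ∃ w : Fin r, w ∉ ({a, b, d, v} : Finset (Fin r)) := by
      by_contra hcon
      push Not at hcon
      have hsub : (univ : Finset (Fin r)) ⊆ {a, b, d, v} := fun v _ => hcon v
      have h3 := card_le_card hsub
      have h4 : ({a, b, d, v} : Finset (Fin r)).card ≤ 4 := card_le_four
      rw [card_univ, Fintype.card_fin] at h3
      omega
    simp only [mem_insert, mem_singleton, not_or] at hv hw
    obtain ⟨hva, hvb, hvd⟩ := hv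
    obtain ⟨hwa, hwb, hwd, hwv⟩ := hw
    rw [h3 a b v w hab (Ne.symm hva) (Ne.symm hwa) (Ne.symm hvb) (Ne.symm hwb) (Ne.symm hwv),
      h3 a d v w had (Ne.symm hva) (Ne.symm hwa) (Ne.symm hvd) (Ne.symm hwd) (Ne.symm hwv)]
  let u0 : Fin r := ⟨0, by omega⟩
  let u1 : Fin r := ⟨1, by omega⟩
  have h01 : u0 ≠ u1 := by simp [u0, u1]
  refine ⟨c {u0, u1}, fun A hA => ?_⟩
  obtain ⟨a, b, hab, rfl⟩ := card_eq_two.mp hA
  by_cases ha0 : a = u0
  · subst ha0
    by_cases hb1 : b = u1
    · rw [hb1]
    · exact h4 u0 b u1 hab h01 hb1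
  · by_cases hb0 : b = u0
    · rw [hb0, pair_comm a u0]
      by_cases ha1 : a = u1
      · rw [ha1]
      · exact h4 u0 a u1 (Ne.symm ha0) h01 ha1
    · by_cases ha1 : a = u1
      · rw [ha1, pair_comm u0 u1]
        exact h4 u1 b u0 (ha1 ▸ hab) h01.symm hb0
      · by_cases hb1 : b = u1
        · rw [hb1, pair_comm a u1, pair_comm u0 u1]
          exact h4 u1 a u0 (Ne.symm ha1) h01.symm ha0
        · exact h3 a b u0 u1 hab ha0 ha1 hb0 hb1 h01

/-- the edge lemma -/
theorem edge {r p : ℕ} (hr : 5 ≤ r) (hp : p = 2 ∨ p + 2 = r) (𝓑 : Finset (Finset (Fin r)))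
    (c : Finset (Fin r) → Finset (Fin r)) (hc : ∀ A, (c A).card = p)
    (hkill : ∀ σ : Equiv.Perm (Fin r), ∃ A ∈ 𝓑, A.card = p ∧ A.image σ = c A) :
    (∀ A : Finset (Fin r), A.card = p → A ∈ 𝓑) ∧
      ∃ P : Finset (Fin r), ∀ A : Finset (Fin r), A.card = p → c A = P := by
  classical
  have hpr : p ≤ r := by omega
  obtain ⟨h1, h2⟩ := count hpr 𝓑 c hc hkill
  refine ⟨h1, ?_⟩
  rcases hp with rfl | hp
  · exact pairs_const hr c hc h2
  · obtain ⟨P, hP⟩ := pairs_const hr (fun S => (c Sᶜ)ᶜ) (by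
      intro S
      rw [card_compl, hc, Fintype.card_fin]
      omega) (by
      intro σ A A' hA hA' e1 e2
      have hcompl : ∀ S T : Finset (Fin r), S.image σ = Tᶜ → (Sᶜ).image σ = T := by
        intro S T h
        have h5 : (Sᶜ).image σ = (S.image σ)ᶜ := by
          ext y
          simp only [mem_image, mem_compl]
          constructor
          · rintro ⟨x, hx, rfl⟩ ⟨z, hz, hzx⟩
            exact hx (σ.injective hzx ▸ hz)
          · intro hy
            exact ⟨σ.symm y, fun hx => hy ⟨σ.symm y, hx, by simp⟩, by simp⟩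
        rw [h5, h, compl_compl]
      have h6 := h2 σ Aᶜ A'ᶜ (by rw [card_compl, hA, Fintype.card_fin]; omega)
        (by rw [card_compl, hA', Fintype.card_fin]; omega) (hcompl _ _ e1) (hcompl _ _ e2)
      exact compl_injective h6)
    refine ⟨Pᶜ, fun A hA => ?_⟩
    have h7 := hP Aᶜ (by rw [card_compl, hA, Fintype.card_fin]; omega)
    simp only [compl_compl] at h7
    rw [← h7, compl_compl]

end Pool.Agent.E8helper47.OD
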