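import Pool.Agent.H507R3.RamAll

/-!
# Large monochromatic sets of `p`-sets, for colourings by `p`-sets that never preserve the size of an
intersection
-/

set_option autoImplicit false

namespace Pool.Agent.E8helper47.OD

open Finset

/-- a pigeonhole argument -/
theorem sun {β : Type} [DecidableEq β] (p k m : ℕ) (hm : 2 ^ p * 2 ^ p < m) (F : Fin m → Finset β)
    (G₀ G₁ : Finset β) (h0 : G₀.card = p) (h1 : G₁.card = p)
    (hF : ∀ s t, s < t → (F s ∩ F t).card = k) (hG0 : ∀ s, (G₀ ∩ F s).card = k)
    (hG1 : ∀ s, (G₁ ∩ F s).card = k) : k ≤ (G₀ ∩ G₁).card := by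
  have hpig := Finset.exists_ne_map_eq_of_card_lt_of_maps_to
    (s := (univ : Finset (Fin m))) (t := G₀.powerset ×ˢ G₁.powerset)
    (f := fun s => (G₀ ∩ F s, G₁ ∩ F s)) (by
      rw [card_product, card_powerset, card_powerset, h0, h1, card_univ, Fintype.card_fin]
      exact hm) (by
      intro s _
      simp only [coe_product, Set.mem_prod, mem_coe, mem_powerset]
      exact ⟨inter_subset_left, inter_subset_left⟩)
  obtain ⟨s, -, t, -, hst, heq⟩ := hpig
  simp only [Prod.mk.injEq] at heq
  have hFk : (F s ∩ F t).card = k := by
    rcases lt_or_gt_of_ne hst with h | h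
    · exact hF s t h
    · rw [inter_comm]; exact hF t s h
  have e0 : G₀ ∩ F s = F s ∩ F t := by
    apply Finset.eq_of_subset_of_card_le
    · intro x hx
      have hx' := hx
      rw [heq.1] at hx'
      exact mem_inter.mpr ⟨(mem_inter.mp hx).2, (mem_inter.mp hx').2⟩
    · rw [hFk, hG0]
  have e1 : G₁ ∩ F s = F s ∩ F t := by
    apply Finset.eq_of_subset_of_card_le
    · intro x hx
      have hx' := hx
      rw [heq.2] at hx'
      exact mem_inter.mpr ⟨(mem_inter.mp hx).2, (mem_inter.mp hx').2⟩
    · rw [hFk, hG1]
  rw [← hFk]
  apply card_le_card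
  intro x hx
  rw [mem_inter]
  refine ⟨?_, ?_⟩
  · rw [← e0] at hx; exact (mem_inter.mp hx).1
  · rw [← e1] at hx; exact (mem_inter.mp hx).1

/-- the sequence that agrees with `x` on `U` and with `y` elsewhere -/
def zz {p : ℕ} (U : Finset (Fin p)) (x y : Fin p → ℕ) : Fin p → ℕ :=
  fun i => if i ∈ U then x i else y i

/-- homogeneous index sequences -/
theorem ram (p M : ℕ) : ∃ R : ℕ, ∀ (β : Type) [DecidableEq β]
    (G : (Fin p → ℕ) → Finset β), (∀ a, (G a).card = p) →
    ∃ (t : ℕ → ℕ) (k : Finset (Fin p) → ℕ), (∀ u v, u < v → v < M → t u < t v) ∧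
      (∀ u, u < M → t u < R) ∧
      ∀ (U : Finset (Fin p)) (x y : Fin p → ℕ), (∀ i, x i < y i) →
        (∀ i j, i < j → y i < x j) → (∀ i, y i < M) →
        (G (fun i => t (x i)) ∩ G (fun i => t (zz U x y i))).card = k U := by
  classical
  obtain ⟨N, hN⟩ := Pool.Agent.H507R3.RamAll.ramsey_gen (Finset (Fin p) → Fin (p + 1)) (2 * p) M
  refine ⟨N, fun β _ G hG => ?_⟩
  have hle : ∀ a b, (G a ∩ G b).card ≤ p := fun a b => by
    rw [← hG a]; exact card_le_card inter_subset_left
  obtain ⟨T, hTS, hTc, k, hk⟩ := hN (range N) (fun l U =>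
    ⟨(G (fun i => l.getD (2 * i.val) 0) ∩
      G (zz U (fun i => l.getD (2 * i.val) 0) (fun i => l.getD (2 * i.val + 1) 0))).card,
      Nat.lt_succ_of_le (hle _ _)⟩) (by simp)
  refine ⟨fun u => if h : u < M then T.orderEmbOfFin hTc ⟨u, h⟩ else 0, fun U => (k U : ℕ),
    ?_, ?_, ?_⟩
  · intro u v huv hv
    have hu : u < M := huv.trans hv
    simp only [hu, hv, dif_pos]
    exact (T.orderEmbOfFin hTc).strictMono huv
  · intro u hu
    simp only [hu, dif_pos]
    exact mem_range.mp (hTS (Finset.orderEmbOfFin_mem T hTc _))
  · intro U x y hxy hyx hyM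
    have hxM : ∀ i, x i < M := fun i => (hxy i).trans (hyM i)
    obtain ⟨t, ht⟩ : ∃ t : ℕ → ℕ, t = fun u => if h : u < M then T.orderEmbOfFin hTc ⟨u, h⟩ else 0 :=
      ⟨_, rfl⟩
    have htm : ∀ u v, u < v → v < M → t u < t v := by
      intro u v huv hv
      have hu : u < M := huv.trans hv
      rw [ht]
      simp only [hu, hv, dif_pos]
      exact (T.orderEmbOfFin hTc).strictMono huv
    have htT : ∀ u, u < M → t u ∈ T := by
      intro u hu
      rw [ht]
      simp only [hu, dif_pos]
      exact Finset.orderEmbOfFin_mem T hTc _
    rw [← ht]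
    have hq : ∀ q : Fin (2 * p), q.val / 2 < p := fun q => Nat.div_lt_of_lt_mul q.2
    obtain ⟨w, hw⟩ : ∃ w : Fin (2 * p) → ℕ, ∀ q : Fin (2 * p), w q =
      if q.val % 2 = 0 then t (x ⟨q.val / 2, hq q⟩) else t (y ⟨q.val / 2, hq q⟩) :=
      ⟨fun q => if q.val % 2 = 0 then t (x ⟨q.val / 2, hq q⟩) else t (y ⟨q.val / 2, hq q⟩),
        fun _ => rfl⟩
    have hlen : (List.ofFn w).length = 2 * p := List.length_ofFn
    have hg0 : ∀ i : Fin p, (List.ofFn w).getD (2 * i.val) 0 = t (x i) := by
      intro i
      rw [List.getD_eq_getElem _ _ (by rw [hlen]; omega), List.getElem_ofFn, hw]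
      have e1 : 2 * i.val % 2 = 0 := by omega
      have e2 : 2 * i.val / 2 = i.val := by omega
      simp only [e1, e2, if_true]
    have hg1 : ∀ i : Fin p, (List.ofFn w).getD (2 * i.val + 1) 0 = t (y i) := by
      intro i
      rw [List.getD_eq_getElem _ _ (by rw [hlen]; omega), List.getElem_ofFn, hw]
      have e1 : ¬ (2 * i.val + 1) % 2 = 0 := by omega
      have e2 : (2 * i.val + 1) / 2 = i.val := by omega
      simp only [e1, e2, if_false]
    have h1 := hk (List.ofFn w) hlen (by
      rw [List.pairwise_ofFn]
      intro q q' hqq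
      rw [hw, hw]
      have hqq' : q.val < q'.val := hqq
      split_ifs with h1 h2 h2
      · apply htm _ _ _ (hxM _)
        have : (⟨q.val / 2, hq q⟩ : Fin p) < ⟨q'.val / 2, hq q'⟩ := by
          rw [Fin.mk_lt_mk]; omega
        exact (hxy _).trans (hyx _ _ this)
      · apply htm _ _ _ (hyM _)
        rcases Nat.lt_or_ge (q.val / 2) (q'.val / 2) with h3 | h3
        · have : (⟨q.val / 2, hq q⟩ : Fin p) < ⟨q'.val / 2, hq q'⟩ := by
            rw [Fin.mk_lt_mk]; exact h3
          exact (hxy _).trans ((hyx _ _ this).trans (hxy _))
        · have : q.val / 2 = q'.val / 2 := by omega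
          simp only [this]
          exact hxy _
      · apply htm _ _ _ (hxM _)
        have : (⟨q.val / 2, hq q⟩ : Fin p) < ⟨q'.val / 2, hq q'⟩ := by
          rw [Fin.mk_lt_mk]; omega
        exact hyx _ _ this
      · apply htm _ _ _ (hyM _)
        have : (⟨q.val / 2, hq q⟩ : Fin p) < ⟨q'.val / 2, hq q'⟩ := by
          rw [Fin.mk_lt_mk]; omega
        exact (hyx _ _ this).trans (hxy _)) (by
      intro v hv
      rw [List.mem_ofFn] at hv
      obtain ⟨q, rfl⟩ := hv
      rw [hw]
      split_ifs
      · exact htT _ (hxM _)
      · exact htT _ (hyM _))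
    have h2 := congrArg (fun f : Finset (Fin p) → Fin (p + 1) => (f U : ℕ)) h1
    simp only at h2
    have e1 : (fun i => (List.ofFn w).getD (2 * (i : Fin p).val) 0) = fun i => t (x i) :=
      funext hg0
    have e2 : (fun i => (List.ofFn w).getD (2 * (i : Fin p).val + 1) 0) = fun i => t (y i) :=
      funext hg1
    have e3 : zz U (fun i => t (x i)) (fun i => t (y i)) = fun i => t (zz U x y i) := by
      funext i
      unfold zz
      split_ifs <;> rfl
    rw [e1, e2, e3] at h2
    exact h2

/-- monochromatic sets -/
theorem mono_set (p V : ℕ) : ∃ R : ℕ, ∀ (β : Type) [DecidableEq β]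
    (G : (Fin p → ℕ) → Finset β), (∀ a, (G a).card = p) →
    (∀ a b : Fin p → ℕ, StrictMono a → StrictMono b → (∀ i, a i < R ∧ b i < R) →
      (∀ i j, a i = b j → i = j) → a ≠ b →
      (univ.filter (fun i => a i = b i)).card ≠ (G a ∩ G b).card) →
    ∃ t : ℕ → ℕ, (∀ u v, u < v → v < V → t u < t v) ∧ (∀ u, u < V → t u < R) ∧
      ∀ v v' : Fin p → ℕ, StrictMono v → StrictMono v' → (∀ i, v i < V) → (∀ i, v' i < V) →
        G (fun i => t (v i)) = G (fun i => t (v' i)) := by
  classical
  obtain ⟨m, hm⟩ : ∃ m, m = 2 ^ p * 2 ^ p + 1 := ⟨_, rfl⟩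
  obtain ⟨L, hL⟩ : ∃ L, L = m + 3 := ⟨_, rfl⟩
  obtain ⟨M, hM⟩ : ∃ M, M = p * L + 2 * (V + p) + 2 := ⟨_, rfl⟩
  obtain ⟨R, hR⟩ := ram p M
  refine ⟨R, fun β _ G hG hne => ?_⟩
  obtain ⟨t, k, htm, htR, hk⟩ := hR β G hG
  -- the numbers `k U` are not `|U|`
  have hkne : ∀ U : Finset (Fin p), U ≠ univ → k U ≠ U.card := by
    intro U hU hkU
    obtain ⟨i₀, hi₀⟩ : ∃ i, i ∉ U := by
      by_contra hcon
      push Not at hcon
      exact hU (eq_univ_iff_forall.mpr hcon)
    have hMp : 2 * p + 2 ≤ M := by rw [hM]; nlinarith
    have hx : ∀ i : Fin p, zz U (fun i => 2 * i.val) (fun i => 2 * i.val + 1) i = 2 * i.val ∨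
        zz U (fun i => 2 * i.val) (fun i => 2 * i.val + 1) i = 2 * i.val + 1 := by
      intro i
      unfold zz
      split_ifs
      · exact Or.inl rfl
      · exact Or.inr rfl
    have h1 := hk U (fun i => 2 * i.val) (fun i => 2 * i.val + 1) (fun i => by omega)
      (fun i j hij => by have : i.val < j.val := hij; omega) (fun i => by have := i.2; omega)
    have htinj : ∀ u v, u < M → v < M → t u = t v → u = v := by
      intro u v hu hv huv
      rcases lt_trichotomy u v with h | h | h
      · have := htm u v h hv; omega
      · exact h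
      · have := htm v u h hu; omega
    have hbd : ∀ i : Fin p, zz U (fun i => 2 * i.val) (fun i => 2 * i.val + 1) i < M := by
      intro i
      have h3 := i.2
      rcases hx i with h | h <;> omega
    apply hne (fun i => t (2 * i.val))
      (fun i => t (zz U (fun i => 2 * i.val) (fun i => 2 * i.val + 1) i))
    · intro i j hij
      have h2 : i.val < j.val := hij
      have h3 := j.2
      exact htm _ _ (by omega) (by omega)
    · intro i j hij
      have h2 : i.val < j.val := hij
      have h3 := j.2
      apply htm _ _ _ (hbd j)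
      rcases hx i with h | h <;> rcases hx j with h' | h' <;> omega
    · intro i
      have h3 := i.2
      exact ⟨htR _ (by omega), htR _ (hbd i)⟩
    · intro i j hij
      have h3 := i.2
      have h2 := htinj _ _ (by omega) (hbd j) hij
      apply Fin.ext
      rcases hx j with h' | h' <;> omega
    · intro hab
      have h2 := congrFun hab i₀
      have h3 := i₀.2
      have h4 := htinj _ _ (by omega) (hbd i₀) h2
      unfold zz at h4
      rw [if_neg hi₀] at h4
      change 2 * i₀.val = 2 * i₀.val + 1 at h4
      omega
    · rw [h1, hkU]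
      congr 1
      ext i
      rw [mem_filter]
      constructor
      · rintro ⟨-, h2⟩
        have h3 := i.2
        have h4 := htinj _ _ (by omega) (hbd i) h2
        by_contra hiU
        unfold zz at h4
        rw [if_neg hiU] at h4
        change 2 * i.val = 2 * i.val + 1 at h4
        omega
      · intro hiU
        refine ⟨mem_univ _, ?_⟩
        unfold zz
        rw [if_pos hiU]
  -- monotonicity
  have hkmono : ∀ U U' : Finset (Fin p), U ⊆ U' → k U ≤ k U' := by
    intro U U' hUU
    let a : ℕ → Fin p → ℕ := fun s i => if i ∈ U then i.val * L else i.val * L + (s + 3)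
    let b : ℕ → Fin p → ℕ := fun s i => if i ∈ U' then i.val * L else i.val * L + (s + 1)
    have hblk : ∀ i j : Fin p, i < j → i.val * L + L ≤ j.val * L := by
      intro i j hij
      have h1 : i.val + 1 ≤ j.val := hij
      calc i.val * L + L = (i.val + 1) * L := by ring
        _ ≤ j.val * L := Nat.mul_le_mul h1 le_rfl
    have hbM : ∀ i : Fin p, i.val * L + L ≤ M := by
      intro i
      have h1 : i.val + 1 ≤ p := i.2
      calc i.val * L + L = (i.val + 1) * L := by ring
        _ ≤ p * L := Nat.mul_le_mul h1 le_rfl
        _ ≤ M := by omega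
    have gen : ∀ (W : Finset (Fin p)) (x z : Fin p → ℕ),
        (∀ i, i.val * L ≤ x i ∧ x i + 1 < i.val * L + L) →
        (∀ i, i ∈ W → z i = x i) → (∀ i, i ∉ W → x i < z i ∧ z i < i.val * L + L) →
        (G (fun i => t (x i)) ∩ G (fun i => t (z i))).card = k W := by
      intro W x z hx hz1 hz2
      have h1 := hk W x (fun i => if i ∈ W then x i + 1 else z i) (by
        intro i
        try dsimp only
        split_ifs with h
        · omega
        · exact (hz2 i h).1) (by
        intro i j hij
        have h2 := hblk i j hij
        have h3 := (hx j).1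
        try dsimp only
        split_ifs with h
        · have := (hx i).2; omega
        · have := (hz2 i h).2; omega) (by
        intro i
        have h2 := hbM i
        try dsimp only
        split_ifs with h
        · have := (hx i).2; omega
        · have := (hz2 i h).2; omega)
      rw [← h1]
      congr 2
      congr 1
      funext i
      by_cases h : i ∈ W
      · simp [zz, h, hz1 i h]
      · simp [zz, h]
    have e1 : ∀ s s', s < s' → s' < m → (G (fun i => t (a s i)) ∩ G (fun i => t (a s' i))).card =
        k U := by
      intro s s' hss hs'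
      apply gen
      · intro i
        simp only [a]
        split_ifs <;> omega
      · intro i hi
        simp only [a, hi, if_true]
      · intro i hi
        simp only [a, hi, if_false]
        omega
    have e2 : ∀ τ s, τ < 2 → s < m → (G (fun i => t (b τ i)) ∩ G (fun i => t (a s i))).card =
        k U := by
      intro τ s hτ hs
      apply gen
      · intro i
        simp only [b]
        split_ifs <;> omega
      · intro i hi
        simp only [a, b, hi, hUU hi, if_true]
      · intro i hi
        simp only [a, b, hi, if_false]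
        split_ifs <;> omega
    have e3 : (G (fun i => t (b 0 i)) ∩ G (fun i => t (b 1 i))).card = k U' := by
      apply gen
      · intro i
        simp only [b]
        split_ifs <;> omega
      · intro i hi
        simp only [b, hi, if_true]
      · intro i hi
        simp only [b, hi, if_false]
        omega
    rw [← e3]
    exact sun p (k U) m (by omega) (fun s => G (fun i => t (a s.val i)))
      _ _ (hG _) (hG _) (fun s s' h => e1 _ _ h s'.2) (fun s => e2 0 _ (by omega) s.2)
      (fun s => e2 1 _ (by omega) s.2)
  -- the chain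
  have hchain : ∀ (n : ℕ) (U : Finset (Fin p)), U.card = n → U ≠ univ → n + 1 ≤ k U := by
    intro n
    induction n with
    | zero =>
      intro U hU hUu
      have := hkne U hUu
      omega
    | succ n ih =>
      intro U hU hUu
      obtain ⟨j, hj⟩ : U.Nonempty := card_pos.mp (by omega)
      have h1 := ih (U.erase j) (by rw [card_erase_of_mem hj]; omega) (by
        intro h
        have : j ∈ U.erase j := by rw [h]; exact mem_univ j
        simp at this)
      have h2 := hkmono (U.erase j) U (erase_subset _ _)
      have h3 := hkne U hUu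
      omega
  have hsingle : ∀ i : Fin p, p ≤ k (univ.erase i) := by
    intro i
    have h1 := hchain (p - 1) (univ.erase i) (by
      rw [card_erase_of_mem (mem_univ i), card_univ, Fintype.card_fin]) (by
      intro h
      have : i ∈ univ.erase i := by rw [h]; exact mem_univ i
      simp at this)
    have := i.2
    omega
  -- moves
  have hmove : ∀ (v v' : Fin p → ℕ) (i : Fin p), StrictMono v → StrictMono v' →
      (∀ j, v j < V + p) → (∀ j, v' j < V + p) → (∀ j, j ≠ i → v j = v' j) → v i ≤ v' i →
      G (fun j => t (2 * v j)) = G (fun j => t (2 * v' j)) := by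
    intro v v' i hv hv' hvV hv'V hvv hii
    rcases hii.eq_or_lt with h | h
    · have : v = v' := by
        funext j
        by_cases hj : j = i
        · rw [hj, h]
        · exact hvv j hj
      rw [this]
    have h1 := hk (univ.erase i) (fun j => 2 * v j)
      (fun j => if j = i then 2 * v' j else 2 * v j + 1) (by
        intro j
        try dsimp only
        split_ifs with hj
        · rw [hj]; omega
        · omega) (by
        intro j l hjl
        try dsimp only
        split_ifs with hj
        · have h2 := hv' hjl
          have h3 := hvv l (by rw [← hj]; exact hjl.ne')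
          omega
        · have h2 := hv hjl
          omega) (by
        intro j
        have h2 := hvV j
        have h3 := hv'V j
        try dsimp only
        split_ifs <;> omega)
    have h2 : (fun j => t (zz (univ.erase i) (fun j => 2 * v j)
        (fun j => if j = i then 2 * v' j else 2 * v j + 1) j)) = fun j => t (2 * v' j) := by
      funext j
      unfold zz
      by_cases hj : j = i
      · subst hj
        simp
      · simp only [mem_erase, ne_eq, hj, not_false_eq_true, mem_univ, and_true, if_true]
        rw [hvv j hj]
    rw [h2] at h1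
    have h3 := hsingle i
    have h4 : G (fun j => t (2 * v j)) ∩ G (fun j => t (2 * v' j)) = G (fun j => t (2 * v j)) := by
      apply Finset.eq_of_subset_of_card_le inter_subset_left
      rw [hG, h1]
      exact h3
    have h5 : G (fun j => t (2 * v j)) ∩ G (fun j => t (2 * v' j)) = G (fun j => t (2 * v' j)) := by
      apply Finset.eq_of_subset_of_card_le inter_subset_right
      rw [hG, h1]
      exact h3
    rw [← h4, h5]
  -- the top sequence
  have htop : ∀ (v : Fin p → ℕ), StrictMono v → (∀ j, v j < V) →
      G (fun j => t (2 * v j)) = G (fun j => t (2 * (V + j.val))) := by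
    intro v hv hvV
    have hstep : ∀ n : ℕ, n ≤ p → G (fun j => t (2 * v j)) =
        G (fun j => t (2 * (if p ≤ j.val + n then V + j.val else v j))) := by
      intro n
      induction n with
      | zero =>
        intro _
        congr 1
        funext j
        have := j.2
        rw [if_neg (by omega)]
      | succ n ih =>
        intro hn
        rw [ih (by omega)]
        have hmn : ∀ n' : ℕ, StrictMono (fun j : Fin p =>
            if p ≤ j.val + n' then V + j.val else v j) := by
          intro n' j l hjl
          have h1 := hv hjl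
          have h2 := hvV j
          have h3 : j.val < l.val := hjl
          try dsimp only
          split_ifs <;> omega
        have hbn : ∀ (n' : ℕ) (j : Fin p), (if p ≤ j.val + n' then V + j.val else v j) < V + p := by
          intro n' j
          have h1 := j.2
          have h2 := hvV j
          split_ifs <;> omega
        apply hmove _ _ ⟨p - (n + 1), by omega⟩ (hmn n) (hmn (n + 1)) (hbn n) (hbn (n + 1))
        · intro j hj
          have h1 : j.val ≠ p - (n + 1) := fun h => hj (Fin.ext h)
          have h2 := j.2
          by_cases h3 : p ≤ j.val + n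
          · rw [if_pos h3, if_pos (by omega)]
          · rw [if_neg h3, if_neg (by omega)]
        · try dsimp only
          rw [if_neg (by omega), if_pos (by omega)]
          have := hvV ⟨p - (n + 1), by omega⟩
          omega
    rw [hstep p le_rfl]
    congr 1
    funext j
    rw [if_pos (by omega)]
  refine ⟨fun u => t (2 * u), ?_, ?_, ?_⟩
  · intro u v huv hv
    exact htm _ _ (by omega) (by omega)
  · intro u hu
    exact htR _ (by omega)
  · intro v v' hv hv' hvV hv'V
    rw [htop v hv hvV, htop v' hv' hv'V]

end Pool.Agent.E8helper47.OD
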