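import Pool.Agent.E8helper47.OD.Edge
import Pool.Agent.E8helper47.OD.Ram

/-!
# The edge lemma for large `r`
-/

set_option autoImplicit false

namespace Pool.Agent.E8helper47.OD

open Finset

/-- pairs of sets with the same sizes are equivalent under permutations -/
theorem ext_pair {r : ℕ} (A B P Q : Finset (Fin r)) (hAP : A.card = P.card)
    (hBQ : B.card = Q.card) (h : (A ∩ B).card = (P ∩ Q).card) :
    ∃ σ : Equiv.Perm (Fin r), A.image σ = P ∧ B.image σ = Q := by
  classical
  have h2 : (A \ B).card = (P \ Q).card := by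
    have e1 := card_sdiff_add_card_inter A B
    have e2 := card_sdiff_add_card_inter P Q
    omega
  have h3 : (B \ A).card = (Q \ P).card := by
    have e1 := card_sdiff_add_card_inter B A
    have e2 := card_sdiff_add_card_inter Q P
    rw [inter_comm] at e1 e2
    omega
  let e1 := Finset.equivOfCardEq h
  let e2 := Finset.equivOfCardEq h2
  let e3 := Finset.equivOfCardEq h3
  let g : Fin r → Fin r := fun x => if hx : x ∈ A ∩ B then (e1 ⟨x, hx⟩ : Fin r)
    else if hx : x ∈ A \ B then (e2 ⟨x, hx⟩ : Fin r)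
    else if hx : x ∈ B \ A then (e3 ⟨x, hx⟩ : Fin r) else x
  have g1 : ∀ x (hx : x ∈ A ∩ B), g x = (e1 ⟨x, hx⟩ : Fin r) := by
    intro x hx
    simp only [g, hx, dif_pos]
  have g2 : ∀ x (hx : x ∈ A \ B), g x = (e2 ⟨x, hx⟩ : Fin r) := by
    intro x hx
    have h4 : x ∉ A ∩ B := fun h => (mem_sdiff.mp hx).2 (mem_inter.mp h).2
    simp only [g, h4, hx, dif_pos, dif_neg, not_false_eq_true]
  have g3 : ∀ x (hx : x ∈ B \ A), g x = (e3 ⟨x, hx⟩ : Fin r) := by
    intro x hx
    have h4 : x ∉ A ∩ B := fun h => (mem_sdiff.mp hx).2 (mem_inter.mp h).1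
    have h5 : x ∉ A \ B := fun h => (mem_sdiff.mp hx).2 (mem_sdiff.mp h).1
    simp only [g, h4, h5, hx, dif_pos, dif_neg, not_false_eq_true]
  have m1 : ∀ x, x ∈ A ∩ B → g x ∈ P ∩ Q := fun x hx => by rw [g1 x hx]; exact (e1 ⟨x, hx⟩).2
  have m2 : ∀ x, x ∈ A \ B → g x ∈ P \ Q := fun x hx => by rw [g2 x hx]; exact (e2 ⟨x, hx⟩).2
  have m3 : ∀ x, x ∈ B \ A → g x ∈ Q \ P := fun x hx => by rw [g3 x hx]; exact (e3 ⟨x, hx⟩).2
  have cases3 : ∀ x, x ∈ A ∪ B → x ∈ A ∩ B ∨ x ∈ A \ B ∨ x ∈ B \ A := by
    intro x hx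
    simp only [mem_union, mem_inter, mem_sdiff] at hx ⊢
    tauto
  have hinj : Set.InjOn g ((A ∪ B : Finset (Fin r)) : Set (Fin r)) := by
    intro x hx y hy hxy
    rw [mem_coe] at hx hy
    rcases cases3 x hx with hx1 | hx1 | hx1 <;> rcases cases3 y hy with hy1 | hy1 | hy1
    · rw [g1 x hx1, g1 y hy1] at hxy
      exact congrArg Subtype.val (e1.injective (Subtype.ext hxy))
    · have a1 := m1 x hx1
      have a2 := m2 y hy1
      rw [hxy] at a1
      exact absurd (mem_inter.mp a1).2 (mem_sdiff.mp a2).2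
    · have a1 := m1 x hx1
      have a2 := m3 y hy1
      rw [hxy] at a1
      exact absurd (mem_inter.mp a1).1 (mem_sdiff.mp a2).2
    · have a1 := m2 x hx1
      have a2 := m1 y hy1
      rw [hxy] at a1
      exact absurd (mem_inter.mp a2).2 (mem_sdiff.mp a1).2
    · rw [g2 x hx1, g2 y hy1] at hxy
      exact congrArg Subtype.val (e2.injective (Subtype.ext hxy))
    · have a1 := m2 x hx1
      have a2 := m3 y hy1
      rw [hxy] at a1
      exact absurd (mem_sdiff.mp a1).1 (mem_sdiff.mp a2).2
    · have a1 := m3 x hx1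
      have a2 := m1 y hy1
      rw [hxy] at a1
      exact absurd (mem_inter.mp a2).1 (mem_sdiff.mp a1).2
    · have a1 := m3 x hx1
      have a2 := m2 y hy1
      rw [hxy] at a1
      exact absurd (mem_sdiff.mp a2).1 (mem_sdiff.mp a1).2
    · rw [g3 x hx1, g3 y hy1] at hxy
      exact congrArg Subtype.val (e3.injective (Subtype.ext hxy))
  obtain ⟨σ, hσ⟩ := ext_perm (A ∪ B) g hinj
  refine ⟨σ, ?_, ?_⟩
  · apply Finset.eq_of_subset_of_card_le
    · intro y hy
      obtain ⟨x, hx, rfl⟩ := mem_image.mp hy
      rw [hσ x (mem_union_left _ hx)]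
      by_cases hxB : x ∈ B
      · exact (mem_inter.mp (m1 x (mem_inter.mpr ⟨hx, hxB⟩))).1
      · exact (mem_sdiff.mp (m2 x (mem_sdiff.mpr ⟨hx, hxB⟩))).1
    · rw [card_image_of_injective _ σ.injective, hAP]
  · apply Finset.eq_of_subset_of_card_le
    · intro y hy
      obtain ⟨x, hx, rfl⟩ := mem_image.mp hy
      rw [hσ x (mem_union_right _ hx)]
      by_cases hxA : x ∈ A
      · exact (mem_inter.mp (m1 x (mem_inter.mpr ⟨hxA, hx⟩))).2
      · exact (mem_sdiff.mp (m3 x (mem_sdiff.mpr ⟨hx, hxA⟩))).1
    · rw [card_image_of_injective _ σ.injective, hBQ]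

/-- a large monochromatic set is everything -/
theorem extend {r p : ℕ} (c : Finset (Fin r) → Finset (Fin r)) (hc : ∀ A, (c A).card = p)
    (hne : ∀ A B : Finset (Fin r), A.card = p → B.card = p → A ≠ B →
      (A ∩ B).card ≠ (c A ∩ c B).card) (S : Finset (Fin r)) (hS : 2 * p ≤ S.card + 1)
    (P : Finset (Fin r)) (hPc : P.card = p) (hP : ∀ A ⊆ S, A.card = p → c A = P) :
    ∀ A : Finset (Fin r), A.card = p → c A = P := by
  classical
  have claim : ∀ W : Finset (Fin r), ∀ A ⊆ S ∪ W, A.card = p → c A = P := by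
    intro W
    induction W using Finset.induction_on with
    | empty =>
      intro A hA hAc
      rw [union_empty] at hA
      exact hP A hA hAc
    | insert z W hz ih =>
      intro A hA hAc
      rw [union_insert] at hA
      by_cases hzS : z ∈ S ∪ W
      · rw [insert_eq_of_mem hzS] at hA
        exact ih A hA hAc
      by_cases hzA : z ∈ A
      · by_contra hcA
        obtain ⟨T, hT⟩ : ∃ T, T = A.erase z := ⟨_, rfl⟩
        have hTS : T ⊆ S ∪ W := by
          intro x hx
          rw [hT, mem_erase] at hx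
          exact (mem_insert.mp (hA hx.2)).resolve_left hx.1
        have hTc : T.card = p - 1 := by rw [hT, card_erase_of_mem hzA, hAc]
        have hp1 : 1 ≤ p := by rw [← hAc]; exact card_pos.mpr ⟨z, hzA⟩
        obtain ⟨j, hj⟩ : ∃ j, j = (P ∩ c A).card := ⟨_, rfl⟩
        have hjp : j < p := by
          have h1 : j ≤ p := by rw [hj, ← hPc]; exact card_le_card inter_subset_left
          rcases h1.eq_or_lt with h2 | h2
          · exfalso
            have h3 : P ∩ c A = P := eq_of_subset_of_card_le inter_subset_left (by omega)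
            have h4 : P ∩ c A = c A := eq_of_subset_of_card_le inter_subset_right (by
              rw [hc]; omega)
            exact hcA (h4.symm.trans h3)
          · exact h2
        obtain ⟨T1, hT1T, hT1c⟩ := Finset.exists_subset_card_eq (s := T) (n := j) (by omega)
        have hSW : S.card ≤ (S ∪ W).card := card_le_card subset_union_left
        have hdiff : p - j ≤ ((S ∪ W) \ T).card := by
          rw [card_sdiff_of_subset hTS]
          omega
        obtain ⟨T2, hT2, hT2c⟩ := Finset.exists_subset_card_eq hdiff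
        have hT2T : ∀ x ∈ T2, x ∉ T := fun x hx => (mem_sdiff.mp (hT2 hx)).2
        have hT2S : ∀ x ∈ T2, x ∈ S ∪ W := fun x hx => (mem_sdiff.mp (hT2 hx)).1
        have hdis : Disjoint T1 T2 := by
          rw [Finset.disjoint_left]
          exact fun x hx1 hx2 => hT2T x hx2 (hT1T hx1)
        have hA1c : (T1 ∪ T2).card = p := by
          rw [card_union_of_disjoint hdis, hT1c, hT2c]
          omega
        have hA1S : T1 ∪ T2 ⊆ S ∪ W := by
          apply union_subset (hT1T.trans hTS)
          exact fun x hx => hT2S x hx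
        have hcA1 := ih (T1 ∪ T2) hA1S hA1c
        have hint : (T1 ∪ T2) ∩ A = T1 := by
          ext x
          simp only [mem_inter, mem_union]
          constructor
          · rintro ⟨hx | hx, hxA⟩
            · exact hx
            · exfalso
              apply hT2T x hx
              rw [hT, mem_erase]
              refine ⟨?_, hxA⟩
              rintro rfl
              exact hzS (hT2S _ hx)
          · intro hx
            refine ⟨Or.inl hx, ?_⟩
            have := hT1T hx
            rw [hT, mem_erase] at this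
            exact this.2
        apply hne (T1 ∪ T2) A hA1c hAc
        · intro h
          rw [← h] at hzA
          exact hzS (hA1S hzA)
        · rw [hint, hT1c, hcA1, hj]
      · apply ih A _ hAc
        intro x hx
        rcases mem_insert.mp (hA hx) with h | h
        · exact absurd (h ▸ hx) hzA
        · exact h
  intro A hA
  exact claim univ A (fun x _ => mem_union_right _ (mem_univ x)) hA

/-- colourings that never preserve the size of an intersection are constant, for large `r` -/
theorem large (p : ℕ) : ∃ R : ℕ, ∀ r : ℕ, R ≤ r → ∀ c : Finset (Fin r) → Finset (Fin r),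
    (∀ A, (c A).card = p) →
    (∀ A B : Finset (Fin r), A.card = p → B.card = p → A ≠ B →
      (A ∩ B).card ≠ (c A ∩ c B).card) →
    ∃ P : Finset (Fin r), ∀ A : Finset (Fin r), A.card = p → c A = P := by
  classical
  obtain ⟨R, hR⟩ := mono_set p (2 * p)
  refine ⟨R + 1, fun r hr c hc hne => ?_⟩
  have hr0 : 0 < r := by omega
  obtain ⟨ψ, hψ⟩ : ∃ ψ : ℕ → Fin r, ∀ n, (ψ n).val = n % r :=
    ⟨fun n => ⟨n % r, Nat.mod_lt _ hr0⟩, fun _ => rfl⟩
  have hψi : ∀ u v, u < R → v < R → ψ u = ψ v → u = v := by
    intro u v hu hv huv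
    have h1 := congrArg Fin.val huv
    rw [hψ, hψ, Nat.mod_eq_of_lt (by omega), Nat.mod_eq_of_lt (by omega)] at h1
    exact h1
  obtain ⟨t, ht1, ht2, ht3⟩ := hR (Fin r) (fun a => c (univ.image (fun i => ψ (a i))))
    (fun a => hc _) (by
      intro a b ha hb hab hij hne'
      have hca : (univ.image (fun i => ψ (a i))).card = p := by
        rw [card_image_of_injective, card_univ, Fintype.card_fin]
        intro i j h
        exact ha.injective (hψi _ _ (hab i).1 (hab j).1 h)
      have hcb : (univ.image (fun i => ψ (b i))).card = p := by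
        rw [card_image_of_injective, card_univ, Fintype.card_fin]
        intro i j h
        exact hb.injective (hψi _ _ (hab i).2 (hab j).2 h)
      have h1 : univ.image (fun i => ψ (a i)) ∩ univ.image (fun i => ψ (b i)) =
          (univ.filter (fun i => a i = b i)).image (fun i => ψ (a i)) := by
        ext x
        simp only [mem_inter, mem_image, mem_univ, true_and, mem_filter]
        constructor
        · rintro ⟨⟨i, rfl⟩, j, hj⟩
          have h2 := hψi _ _ (hab j).2 (hab i).1 hj
          have h3 := hij i j h2.symm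
          subst h3
          exact ⟨i, h2.symm, rfl⟩
        · rintro ⟨i, hi, rfl⟩
          exact ⟨⟨i, rfl⟩, i, by rw [hi]⟩
      have h4 : (univ.image (fun i => ψ (a i)) ∩ univ.image (fun i => ψ (b i))).card =
          (univ.filter (fun i => a i = b i)).card := by
        rw [h1, card_image_of_injective]
        intro i j h
        exact ha.injective (hψi _ _ (hab i).1 (hab j).1 h)
      rw [← h4]
      apply hne _ _ hca hcb
      intro h5
      apply hne'
      funext i
      have h6 : ψ (a i) ∈ univ.image (fun i => ψ (b i)) := by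
        rw [← h5]
        exact mem_image_of_mem _ (mem_univ i)
      obtain ⟨j, -, hj⟩ := mem_image.mp h6
      have h7 := hψi _ _ (hab j).2 (hab i).1 hj
      have h8 := hij i j h7.symm
      rw [h8, h7, h8])
  have hti : ∀ u v, u < 2 * p → v < 2 * p → ψ (t u) = ψ (t v) → u = v := by
    intro u v hu hv huv
    have h1 := hψi _ _ (ht2 u hu) (ht2 v hv) huv
    rcases lt_trichotomy u v with h | h | h
    · have := ht1 u v h hv; omega
    · exact h
    · have := ht1 v u h hu; omega
  obtain ⟨S, hS⟩ : ∃ S : Finset (Fin r), S = (range (2 * p)).image (fun u => ψ (t u)) := ⟨_, rfl⟩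
  have hSc : S.card = 2 * p := by
    rw [hS, card_image_of_injOn, card_range]
    intro u hu v hv huv
    exact hti u v (mem_range.mp (by exact_mod_cast hu)) (mem_range.mp (by exact_mod_cast hv)) huv
  obtain ⟨P, hP⟩ : ∃ P, P = c (univ.image (fun i : Fin p => ψ (t i.val))) := ⟨_, rfl⟩
  refine ⟨P, extend c hc hne S (by omega) P (by rw [hP, hc]) ?_⟩
  intro A hAS hA
  obtain ⟨A', hA'⟩ : ∃ A', A' = (range (2 * p)).filter (fun u => ψ (t u) ∈ A) := ⟨_, rfl⟩
  have hA'A : A'.image (fun u => ψ (t u)) = A := by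
    ext x
    rw [mem_image]
    constructor
    · rintro ⟨u, hu, rfl⟩
      rw [hA', mem_filter] at hu
      exact hu.2
    · intro hx
      have h1 := hAS hx
      rw [hS, mem_image] at h1
      obtain ⟨u, hu, rfl⟩ := h1
      exact ⟨u, by rw [hA', mem_filter]; exact ⟨hu, hx⟩, rfl⟩
  have hA'r : ∀ u ∈ A', u < 2 * p := fun u hu => by
    rw [hA', mem_filter] at hu
    exact mem_range.mp hu.1
  have hA'c : A'.card = p := by
    rw [← hA, ← hA'A, card_image_of_injOn]
    intro u hu v hv huv
    exact hti u v (hA'r u hu) (hA'r v hv) huv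
  have h2 := ht3 (fun i => A'.orderEmbOfFin hA'c i) (fun i => i.val)
    (A'.orderEmbOfFin hA'c).strictMono (fun i j h => h)
    (fun i => hA'r _ (Finset.orderEmbOfFin_mem A' hA'c i)) (fun i => by have := i.2; omega)
  rw [hP, ← h2]
  congr 1
  rw [← hA'A]
  ext x
  simp only [mem_image, mem_univ, true_and]
  constructor
  · rintro ⟨u, hu, rfl⟩
    have h3 : u ∈ Set.range (A'.orderEmbOfFin hA'c) := by
      rw [Finset.range_orderEmbOfFin]; exact hu
    obtain ⟨i, rfl⟩ := h3
    exact ⟨i, rfl⟩
  · rintro ⟨i, rfl⟩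
    exact ⟨_, Finset.orderEmbOfFin_mem A' hA'c i, rfl⟩

/-- the edge property: a partial colouring that blocks all orderings is total and constant -/
def EdgeProp (r p : ℕ) : Prop :=
  ∀ (𝓑 : Finset (Finset (Fin r))) (c : Finset (Fin r) → Finset (Fin r)),
    (∀ A, (c A).card = p) →
    (∀ σ : Equiv.Perm (Fin r), ∃ A ∈ 𝓑, A.card = p ∧ A.image σ = c A) →
    (∀ A : Finset (Fin r), A.card = p → A ∈ 𝓑) ∧
      ∃ P : Finset (Fin r), ∀ A : Finset (Fin r), A.card = p → c A = P

theorem edge_large (p : ℕ) : ∃ R : ℕ, ∀ r : ℕ, R ≤ r → EdgeProp r p ∧ EdgeProp r (r - p) := by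
  classical
  obtain ⟨R, hR⟩ := large p
  refine ⟨R + p, fun r hr => ?_⟩
  have hne : ∀ (c : Finset (Fin r) → Finset (Fin r)), (∀ A, (c A).card = p) →
      (∀ (σ : Equiv.Perm (Fin r)) (A A' : Finset (Fin r)), A.card = p → A'.card = p →
        A.image σ = c A → A'.image σ = c A' → A = A') →
      ∃ P : Finset (Fin r), ∀ A : Finset (Fin r), A.card = p → c A = P := by
    intro c hc hu
    apply hR r (by omega) c hc
    intro A B hA hB hAB hcard
    obtain ⟨σ, h1, h2⟩ := ext_pair A B (c A) (c B) (by rw [hA, hc]) (by rw [hB, hc]) hcard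
    exact hAB (hu σ A B hA hB h1 h2)
  constructor
  · intro 𝓑 c hc hkill
    obtain ⟨h1, h2⟩ := count (by omega) 𝓑 c hc hkill
    exact ⟨h1, hne c hc h2⟩
  · intro 𝓑 c hc hkill
    obtain ⟨h1, h2⟩ := count (by omega) 𝓑 c hc hkill
    refine ⟨h1, ?_⟩
    obtain ⟨P, hP⟩ := hne (fun S => (c Sᶜ)ᶜ) (by
      intro S
      rw [card_compl, hc, Fintype.card_fin]
      omega) (by
      intro σ A A' hA hA' e1 e2
      have hcompl : ∀ S T : Finset (Fin r), S.image σ = Tᶜ → (Sᶜ).image σ = T := by
        intro S T h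
        have h5 : (Sᶜ).image σ = (S.image σ)ᶜ := by
          ext y
          simp only [mem_image, mem_compl]
          constructor
          · rintro ⟨x, hx, rfl⟩ ⟨z, hz, hzx⟩
            exact hx (σ.injective hzx ▸ hz)
          · intro hy
            exact ⟨σ.symm y, fun hx => hy ⟨σ.symm y, hx, by simp⟩, by simp⟩
        rw [h5, h, compl_compl]
      have h6 := h2 σ Aᶜ A'ᶜ (by rw [card_compl, hA, Fintype.card_fin])
        (by rw [card_compl, hA', Fintype.card_fin]) (hcompl _ _ e1) (hcompl _ _ e2)
      exact compl_injective h6)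
    refine ⟨Pᶜ, fun A hA => ?_⟩
    have h7 := hP Aᶜ (by rw [card_compl, hA, Fintype.card_fin]; omega)
    simp only [compl_compl] at h7
    rw [← h7, compl_compl]

end Pool.Agent.E8helper47.OD
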